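import Pool.Agent.H9.Reg2

set_option autoImplicit false

namespace Pool.Agent.Results.MP_b4b0f8_co.Full

/-- The subgraph `(V(E), E)` is 2-regular: every vertex on an edge of `E` lies on exactly two. -/
def TwoRegular {V : Type} [DecidableEq V] (E : Finset (Sym2 V)) : Prop :=
  ∀ v : V, (∃ e ∈ E, v ∈ e) → (E.filter fun e => v ∈ e).card = 2

theorem result {V : Type} [Fintype V] [DecidableEq V] [Nonempty V] (G : SimpleGraph V)
    [DecidableRel G.Adj] (k : ℕ) (h : G.IsRegularOfDegree (2 * k + 1)) :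
    ∃ P : Finpartition G.edgeFinset, P.parts.card ≤ Fintype.card V - 1 ∧
      ∀ E ∈ P.parts, TwoRegular E ∨ E.card = 1 := by
  obtain ⟨P, h1, h2⟩ := Pool.Agent.H9.Reg.main G h
  exact ⟨P, by omega, h2⟩

end Pool.Agent.Results.MP_b4b0f8_co.Full
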